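import Pool.Agent.R336.TC.Canon

/-!
# MP_9a1833_al: torsion-free tensor product of an ideal with its canonical dual

Let `R` be a one-dimensional Noetherian local domain with a canonical module `ω` and of minimal
multiplicity, and `I` a nonzero ideal such that `I ⊗ Hom(I, ω)` is torsion-free. Then `I ≅ R` or
`I ≅ ω`. No assumption on the residue field. (Paper proof by helper690.)
-/

set_option autoImplicit false

universe u

open TensorProduct IsLocalRing CategoryTheory Filter Topology

namespace Pool.Agent.Results.MP_9a1833_al.MinMultTensor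

/-- A canonical module of a Cohen-Macaulay local ring of dimension one: a finitely generated
module which is maximal Cohen-Macaulay (the maximal ideal contains an `ω`-regular element), has
finite injective dimension, and has type one, that is `Ext¹(k, ω) ≅ k`. -/
structure IsCanonicalModule (R : Type u) [CommRing R] [IsLocalRing R]
    (ω : Type u) [AddCommGroup ω] [Module R ω] : Prop where
  finite : Module.Finite R ω
  cohenMacaulay : ∃ x ∈ maximalIdeal R, IsSMulRegular ω x
  injdim : ∃ n : ℕ, HasInjectiveDimensionLE (ModuleCat.of R ω) n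
  type_one : Nonempty (Abelian.Ext (ModuleCat.of R (R ⧸ maximalIdeal R)) (ModuleCat.of R ω) 1 ≃ₗ[R]
    (R ⧸ maximalIdeal R))

/-- `e` is the Hilbert-Samuel multiplicity of the one-dimensional local ring `R`:
`length(R / m^n) / n` tends to `e`. -/
def IsMultiplicity (R : Type u) [CommRing R] [IsLocalRing R] (e : ℝ) : Prop :=
  Tendsto (fun n : ℕ => ((Module.length R (R ⧸ maximalIdeal R ^ n)).toNat : ℝ) / n) atTop (𝓝 e)

/-- The embedding dimension, `dim_k m / m²`. -/
noncomputable def embdim (R : Type u) [CommRing R] [IsLocalRing R] : ℕ :=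
  Module.finrank (ResidueField R) (CotangentSpace R)

/-- Minimal multiplicity in dimension one: `e(R) = embdim R`. -/
def HasMinimalMultiplicity (R : Type u) [CommRing R] [IsLocalRing R] : Prop :=
  IsMultiplicity R (embdim R)

/-- Torsion-free modules: `r x ≠ 0` for `r ≠ 0` and `x ≠ 0`. -/
def TorsionFree (R : Type u) [CommRing R] (N : Type u) [AddCommGroup N] [Module R N] : Prop :=
  ∀ r : R, r ≠ 0 → ∀ x : N, x ≠ 0 → r • x ≠ 0

theorem result {R : Type u} [CommRing R] [IsDomain R] [IsLocalRing R] [IsNoetherianRing R]
    (hdim : ringKrullDim R = 1)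
    {ω : Type u} [AddCommGroup ω] [Module R ω] (hω : IsCanonicalModule R ω)
    (hmin : HasMinimalMultiplicity R)
    (I : Ideal R) (hI : I ≠ ⊥) (htf : TorsionFree R (I ⊗[R] (I →ₗ[R] ω))) :
    Nonempty (I ≃ₗ[R] R) ∨ Nonempty (I ≃ₗ[R] ω) := by
  have hk : Ring.KrullDimLE 1 R := by
    rw [Ring.krullDimLE_iff, hdim]
    norm_num
  have hm : maximalIdeal R ≠ ⊥ := by
    intro h
    have hf : IsField R := (IsLocalRing.isField_iff_maximalIdeal_eq).mpr h
    have := ringKrullDim_eq_zero_of_isField hf
    rw [hdim] at this
    exact one_ne_zero this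
  have hc : R336.TC.IsCanonicalModule R ω :=
    ⟨hω.finite, hω.cohenMacaulay, hω.injdim, hω.type_one⟩
  obtain ⟨K, hK, ⟨e⟩⟩ := hc.exists_canon (F := FractionRing R) hm
  have he : R336.TC.MultNum R (FractionRing R)
      (R336.TC.mu R (R336.TC.mF R (FractionRing R))) := by
    rw [← R336.TC.finrank_cotangent]
    exact R336.TC.multNum_of_tendsto hmin
  refine R336.TC.main_aux hm he hK e hI ?_
  intro r hr z hz
  by_contra hne
  exact htf r hr z hne hz

end Pool.Agent.Results.MP_9a1833_al.MinMultTensor
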